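import Mathlib
import Pool.Agent.L7h11.UM.Brk
import Pool.Agent.L7h11.UM.Final
import Pool.Agent.L7h34.UM.Swe

/-!
# The upper minus domination number of a tree in linear time

The model is the word RAM of the starting file `Pool.Agent.H588R2.Model`: registers and memory cells hold
words of `w` bits; the instructions (constant, sum, truncated difference, product, load, store, jump,
conditional jump, halt) take one unit of time each. The input is a tree `G` with the vertices
`0, ..., n - 1`, given by adjacency lists: the cells `0, ..., n` hold the places at which the lists of the
vertices begin (the cell `n` holds the end of the last list), the lists, in any order, are in the cells
`n + 1, ..., 3 n - 2`; all other cells are zero, and the register `0` holds `n`. At the end the register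
`0` holds `Γ⁻(G)`, the largest weight of a minimal minus dominating function of `G`.

We construct a program which does this in at most `C n` steps, for every word length `w` with
`2 ^ w ≥ C (n + 1)`: the words need only `log₂ n + O (1)` bits. This answers the question of the problem.

The algorithm. Root the tree (breadth first search) and compute from the leaves to the root, for each
vertex `v`, the best weight of a partial function on the subtree of `v` with a prescribed value at `v`
and at its parent, with `f[v] = 1` or `f[v] ≥ 2`, and with the covering condition at `v` satisfied from
below or left to the parent (`27` numbers). At a vertex one has to choose the values of the children,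
where the sum of the values is prescribed or bounded from below, and perhaps one child must be tight.
The differences of the numbers of one child are not bounded, so this is a selection problem with large
integers, and a straightforward treatment needs quadratic time. We choose a base solution which is optimal
for a Lagrange multiplier `μ / 2` (for all children except perhaps one) and has a sum close to the wanted
one. An exchange argument shows that some optimal choice differs from it at less than `15` children;
so a dynamic program in a window of constant width around the base solution finds the optimum in time
proportional to the degree. The multipliers are found as follows: the vertices are divided into classes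
by their subtree size (between `2 ^ j` and `2 ^ (j + 1)`); a vertex has at most one child in its own
class (the exceptional one), and the breakpoints of the other children are integers of size
`O (2 ^ j)`. One sweep over `O (2 ^ j)` buckets, which contain the breakpoints of all the light children
of all vertices of the class, lowers the base solutions of all these vertices simultaneously until
their sums are small. The sum of the `2 ^ j ≤ n` is at most `2 n`, so the total time is `O (n)`.
-/

set_option autoImplicit false

namespace Pool.Agent.Results.MP_d85e1b_lc.LinearTime

open Pool.Agent.H588R2 (Instr HaltsWithin)
open Pool.Agent.L7h11.UM (IsAdjacencyList IsUpperMinus)

theorem result :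
    ∃ (P : List Instr) (C : ℕ), ∀ (n w : ℕ) (G : SimpleGraph (Fin n)) (mem : ℕ → ℕ), 1 ≤ n →
      G.IsTree → IsAdjacencyList n G mem → (∀ i, 3 * n - 1 ≤ i → mem i = 0) →
      C * (n + 1) ≤ 2 ^ w →
      ∃ out : ℕ, HaltsWithin w P ⟨0, ⟨fun r => if r = 0 then n else 0, mem⟩⟩ (C * n) out ∧
        IsUpperMinus G out :=
  Pool.Agent.L7h11.UM.thm_of_swe
    (Pool.Agent.L7h34.UM.s_SWE Pool.Agent.L7h11.UM.s_siz Pool.Agent.L7h11.UM.s_brk)

end Pool.Agent.Results.MP_d85e1b_lc.LinearTime
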